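import Mathlib

namespace Pool.Agent.Results.MP_3400ab_nt.UniqueMinimalUpper

/-- The set of minimal `m`-Markoff triples: ordered triples `a ≤ b ≤ c` of positive integers with
`a² + b² + c² = 3abc + m` and `c ≥ 3ab`. -/
def minimalTriples (m : ℕ) : Set (ℕ × ℕ × ℕ) :=
  {t | 0 < t.1 ∧ t.1 ≤ t.2.1 ∧ t.2.1 ≤ t.2.2 ∧ 3 * t.1 * t.2.1 ≤ t.2.2 ∧
    t.1 ^ 2 + t.2.1 ^ 2 + t.2.2 ^ 2 = 3 * t.1 * t.2.1 * t.2.2 + m}

/-- The integers `m > 1` with exactly one minimal `m`-Markoff triple. -/
def U : Set ℕ := {m | 1 < m ∧ (minimalTriples m).ncard = 1}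

lemma sq_add_mem {m a b : ℕ} (ha : 0 < a) (hab : a ≤ b) (h : m = a ^ 2 + b ^ 2) :
    (a, b, 3 * a * b) ∈ minimalTriples m := by
  refine ⟨ha, hab, ?_, le_refl _, ?_⟩
  · simp only
    nlinarith
  · simp only
    rw [h]; ring

lemma sorted_mem {m X Y : ℕ} (hX : 0 < X) (hY : 0 < Y) (h : m = X ^ 2 + Y ^ 2) :
    (min X Y, max X Y, 3 * min X Y * max X Y) ∈ minimalTriples m := by
  apply sq_add_mem
  · exact lt_min hX hY
  · exact min_le_max
  · rcases le_total X Y with h1 | h1
    · rw [min_eq_left h1, max_eq_right h1, h]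
    · rw [min_eq_right h1, max_eq_left h1, h]; ring

lemma sum_eq_of_unique {m X Y X' Y' : ℕ} (hu : (minimalTriples m).ncard = 1)
    (hX : 0 < X) (hY : 0 < Y) (h : m = X ^ 2 + Y ^ 2)
    (hX' : 0 < X') (hY' : 0 < Y') (h' : m = X' ^ 2 + Y' ^ 2) : X + Y = X' + Y' := by
  obtain ⟨t, ht⟩ := Set.ncard_eq_one.mp hu
  have h1 := sorted_mem hX hY h
  have h2 := sorted_mem hX' hY' h'
  rw [ht, Set.mem_singleton_iff] at h1 h2
  have h3 := h1.trans h2.symm
  simp only [Prod.mk.injEq] at h3
  rw [← min_add_max X Y, ← min_add_max X' Y', h3.1, h3.2.1]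

/-- If `c > 3ab` in the unique minimal triple then `m = 3a³ + 3a²`. -/
lemma case_gt {m a b c : ℕ} (hu : minimalTriples m = {(a, b, c)}) (hc : 3 * a * b < c) :
    m = 3 * a ^ 3 + 3 * a ^ 2 := by
  have h1 : (a, b, c) ∈ minimalTriples m := by rw [hu]; exact Set.mem_singleton _
  obtain ⟨ha, hab, hbc, h3, heq⟩ := h1
  simp only at ha hab hbc h3 heq
  obtain ⟨d, rfl⟩ : ∃ d, c = 3 * a * b + d := ⟨c - 3 * a * b, by omega⟩
  have hd : 0 < d := by omega
  have hb : 0 < b := by omega
  have hm : m = a ^ 2 + b ^ 2 + d ^ 2 + 3 * a * b * d := by nlinarith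
  -- the triple with the roles of `b` and `d` exchanged
  have key : ∀ x y z : ℕ, 0 < x → 0 < y → 0 < z → m = x ^ 2 + y ^ 2 + z ^ 2 + 3 * x * y * z →
      (min x y, max x y, 3 * x * y + z) ∈ minimalTriples m := by
    intro x y z hx hy hz h
    have hxy : ∀ u v : ℕ, u ≤ v → 0 < u → m = u ^ 2 + v ^ 2 + z ^ 2 + 3 * u * v * z →
        (u, v, 3 * u * v + z) ∈ minimalTriples m := by
      intro u v huv hu0 h
      refine ⟨hu0, huv, ?_, ?_, ?_⟩
      · simp only; nlinarith
      · simp only; omega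
      · simp only; rw [h]; ring
    rcases le_total x y with h1 | h1
    · rw [min_eq_left h1, max_eq_right h1]; exact hxy x y h1 hx h
    · rw [min_eq_right h1, max_eq_left h1, show 3 * x * y = 3 * y * x by ring]
      exact hxy y x h1 hy (by rw [h]; ring)
  have k1 := key a d b ha hd hb (by rw [hm]; ring)
  have k2 := key b d a hb hd ha (by rw [hm]; ring)
  rw [hu, Set.mem_singleton_iff] at k1 k2
  simp only [Prod.mk.injEq] at k1 k2
  have e1 : a + d = a + b := by rw [← min_add_max a d, k1.1, k1.2.1]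
  have e2 : b + d = a + b := by rw [← min_add_max b d, k2.1, k2.2.1]
  have hdb : d = b := by omega
  have hba : b = a := by omega
  subst hdb
  rw [hm, hba]; ring

/-- Products of two sums of two squares of the relevant kind have two representations. -/
lemma two_reps {m n c d e f : ℕ} (hu : (minimalTriples m).ncard = 1) (hn : 0 < n)
    (hm : m = n ^ 2 * ((c ^ 2 + d ^ 2) * (e ^ 2 + f ^ 2)))
    (hc : 0 < c) (hcd : c < d) (he : 0 < e) (hef : e < f) (hne : c * f ≠ d * e) : False := by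
  have h1 : c * e < d * f := by nlinarith
  obtain ⟨X, hX⟩ : ∃ X, d * f = c * e + X := ⟨d * f - c * e, by omega⟩
  have hX0 : 0 < X := by omega
  have hY0 : 0 < c * f + d * e := Nat.add_pos_left (Nat.mul_pos hc (by omega)) _
  have hX2 : 0 < c * e + d * f := Nat.add_pos_left (Nat.mul_pos hc he) _
  rcases lt_or_gt_of_ne hne with h2 | h2
  · obtain ⟨Y, hY⟩ : ∃ Y, d * e = c * f + Y := ⟨d * e - c * f, by omega⟩
    have hY0' : 0 < Y := by omega
    have r1 : m = (n * X) ^ 2 + (n * (c * f + d * e)) ^ 2 := by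
      rw [hm]
      zify at hX ⊢
      have : (X : ℤ) = d * f - c * e := by linarith
      rw [this]; ring
    have r2 : m = (n * (c * e + d * f)) ^ 2 + (n * Y) ^ 2 := by
      rw [hm]
      zify at hY ⊢
      have : (Y : ℤ) = d * e - c * f := by linarith
      rw [this]; ring
    have := sum_eq_of_unique hu (by positivity) (by positivity) r1 (by positivity)
      (by positivity) r2
    have h4 : X + (c * f + d * e) = (c * e + d * f) + Y := by
      have : n * (X + (c * f + d * e)) = n * ((c * e + d * f) + Y) := by linarith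
      exact Nat.eq_of_mul_eq_mul_left hn this
    have h5 : c * f = c * e := by linarith
    have := Nat.eq_of_mul_eq_mul_left hc h5
    omega
  · obtain ⟨Y, hY⟩ : ∃ Y, c * f = d * e + Y := ⟨c * f - d * e, by omega⟩
    have hY0' : 0 < Y := by omega
    have r1 : m = (n * X) ^ 2 + (n * (c * f + d * e)) ^ 2 := by
      rw [hm]
      zify at hX ⊢
      have : (X : ℤ) = d * f - c * e := by linarith
      rw [this]; ring
    have r2 : m = (n * (c * e + d * f)) ^ 2 + (n * Y) ^ 2 := by
      rw [hm]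
      zify at hY ⊢
      have : (Y : ℤ) = c * f - d * e := by linarith
      rw [this]; ring
    have := sum_eq_of_unique hu (by positivity) (by positivity) r1 (by positivity)
      (by positivity) r2
    have h4 : X + (c * f + d * e) = (c * e + d * f) + Y := by
      have : n * (X + (c * f + d * e)) = n * ((c * e + d * f) + Y) := by linarith
      exact Nat.eq_of_mul_eq_mul_left hn this
    have h5 : e * d = e * c := by linarith
    have := Nat.eq_of_mul_eq_mul_left he h5
    omega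

/-- A squarefree number different from `1` is not a square. -/
lemma not_sq_of_squarefree {s z : ℕ} (hs : Squarefree s) (hs1 : s ≠ 1) : s ≠ z ^ 2 := by
  rintro rfl
  rw [pow_two] at hs hs1
  have := hs z (dvd_refl _)
  rw [Nat.isUnit_iff] at this
  subst this
  simp at hs1

/-- Structure of the elements of `U`. -/
lemma structure_of_mem {m : ℕ} (hm : m ∈ U) :
    (∃ a, m = 3 * a ^ 3 + 3 * a ^ 2) ∨ (∃ n, m = n ^ 2) ∨ (∃ n, m = 2 * n ^ 2) ∨
      (∃ n p, p.Prime ∧ m = p * n ^ 2) ∨ (∃ n p, p.Prime ∧ m = 2 * p * n ^ 2) := by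
  obtain ⟨hm1, hu⟩ := hm
  obtain ⟨⟨a, b, c⟩, ht⟩ := Set.ncard_eq_one.mp hu
  have h1 : (a, b, c) ∈ minimalTriples m := by rw [ht]; exact Set.mem_singleton _
  obtain ⟨ha, hab, hbc, h3, heq⟩ := h1
  simp only at ha hab hbc h3 heq
  rcases Nat.lt_or_ge (3 * a * b) c with hc | hc
  · exact Or.inl ⟨a, case_gt ht hc⟩
  have hc' : c = 3 * a * b := le_antisymm hc h3
  have hmab : m = a ^ 2 + b ^ 2 := by
    rw [hc'] at heq
    nlinarith
  right
  have hodd : ∀ q ∈ m.primeFactors, q % 4 = 3 → Even (padicValNat q m) :=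
    Nat.eq_sq_add_sq_iff.mp ⟨a, b, hmab⟩
  obtain ⟨n, s, hns, hs⟩ : ∃ n s : ℕ, n ^ 2 * s = m ∧ Squarefree s := by
    obtain ⟨s, n, h1, h2⟩ := Nat.sq_mul_squarefree m
    exact ⟨n, s, h1, h2⟩
  have hm0 : m ≠ 0 := by omega
  have hn0 : n ≠ 0 := by rintro rfl; simp at hns; omega
  have hs0 : s ≠ 0 := by rintro rfl; simp at hns; omega
  -- primes dividing `s`
  have hq3 : ∀ q : ℕ, q.Prime → q ∣ s → q % 4 ≠ 3 := by
    intro q hq hqs h3
    have hE := hodd q (Nat.mem_primeFactors.mpr ⟨hq, hns ▸ hqs.mul_left (n ^ 2), hm0⟩) h3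
    have : Fact q.Prime := ⟨hq⟩
    rw [← hns, padicValNat.mul (pow_ne_zero 2 hn0) hs0, padicValNat.pow] at hE
    have h1 : padicValNat q s = 1 := by
      have h2 := Squarefree.natFactorization_le_one q hs
      rw [Nat.factorization_def _ hq] at h2
      have h3 := one_le_padicValNat_of_dvd hs0 hqs
      omega
    rw [h1] at hE
    obtain ⟨r, hr⟩ := hE
    omega
  -- at most one odd prime divides `s`
  have hone : ∀ p q : ℕ, p.Prime → q.Prime → p ≠ 2 → q ≠ 2 → p ∣ s → q ∣ s → p = q := by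
    intro p q hp hq hp2 hq2 hps hqs
    by_contra hpq
    obtain ⟨t, rfl⟩ := hps
    have ht0 : t ≠ 0 := by rintro rfl; simp at hs0
    have hts : Squarefree t := hs.squarefree_of_dvd (dvd_mul_left _ _)
    have hqt : q ∣ t := by
      rcases (Nat.Prime.dvd_mul hq).mp hqs with h | h
      · exact absurd ((Nat.prime_dvd_prime_iff_eq hq hp).mp h).symm hpq
      · exact h
    have hp4 : p % 4 ≠ 3 := hq3 p hp (dvd_mul_right _ _)
    have : Fact p.Prime := ⟨hp⟩
    obtain ⟨c, d, hcd⟩ := Nat.Prime.sq_add_sq hp4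
    have hpo : p % 2 = 1 := hp.eq_two_or_odd.resolve_left hp2
    obtain ⟨e, f, hef⟩ : ∃ e f : ℕ, t = e ^ 2 + f ^ 2 := by
      rw [Nat.eq_sq_add_sq_iff]
      intro r hr hr4
      have hr' := Nat.mem_primeFactors.mp hr
      exact absurd hr4 (hq3 r hr'.1 (hr'.2.1.mul_left p))
    -- non-degeneracy
    have hc0 : c ≠ 0 := by
      rintro rfl
      have : IsSquare p := ⟨d, by rw [← hcd]; ring⟩
      exact hp.prime.not_isSquare this
    have hd0 : d ≠ 0 := by
      rintro rfl
      have : IsSquare p := ⟨c, by rw [← hcd]; ring⟩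
      exact hp.prime.not_isSquare this
    have hcdne : c ≠ d := by
      rintro rfl
      omega
    have ht1 : t ≠ 1 := by
      rintro rfl
      exact hq.one_lt.ne' (Nat.dvd_one.mp hqt)
    have he0 : e ≠ 0 := by
      rintro rfl
      exact not_sq_of_squarefree hts ht1 (by rw [hef]; ring : t = f ^ 2)
    have hf0 : f ≠ 0 := by
      rintro rfl
      exact not_sq_of_squarefree hts ht1 (by rw [hef]; ring : t = e ^ 2)
    have hefne : e ≠ f := by
      rintro rfl
      have h1 : e * e ∣ t := ⟨2, by rw [hef]; ring⟩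
      have h2 := hts e h1
      rw [Nat.isUnit_iff] at h2
      subst h2
      have h3 : t = 2 := by rw [hef]; norm_num
      rw [h3] at hqt
      exact hq2 ((Nat.prime_dvd_prime_iff_eq hq Nat.prime_two).mp hqt)
    have hs1 : p * t ≠ 1 := by
      intro h
      exact ht1 (Nat.eq_one_of_mul_eq_one_left h)
    -- order the four numbers
    have main : ∀ c d e f : ℕ, c ≠ 0 → e ≠ 0 → c < d → e < f → p = c ^ 2 + d ^ 2 →
        t = e ^ 2 + f ^ 2 → False := by
      intro c d e f hc he hcd hef h1 h2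
      refine two_reps hu (Nat.pos_of_ne_zero hn0) (c := c) (d := d) (e := e) (f := f) ?_
        (Nat.pos_of_ne_zero hc) hcd (Nat.pos_of_ne_zero he) hef ?_
      · rw [← hns, h1, h2]
      · intro h3
        apply not_sq_of_squarefree hs hs1 (z := c * e + d * f)
        rw [h1, h2]
        have : (c * f) ^ 2 = (c * f) * (d * e) := by rw [← h3]; ring
        have h4 : (d * e) ^ 2 = (c * f) * (d * e) := by rw [h3]; ring
        nlinarith
    rcases lt_or_gt_of_ne hcdne with h1 | h1 <;> rcases lt_or_gt_of_ne hefne with h2 | h2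
    · exact main c d e f hc0 he0 h1 h2 hcd.symm hef
    · exact main c d f e hc0 hf0 h1 h2 hcd.symm (by rw [hef]; ring)
    · exact main d c e f hd0 he0 h1 h2 (by rw [← hcd]; ring) hef
    · exact main d c f e hd0 hf0 h1 h2 (by rw [← hcd]; ring) (by rw [hef]; ring)
  -- conclusion
  by_cases hex : ∃ p, p.Prime ∧ p ≠ 2 ∧ p ∣ s
  · obtain ⟨p, hp, hp2, t, rfl⟩ := hex
    have ht0 : t ≠ 0 := by rintro rfl; simp at hs0
    have hpt : ¬ p ∣ t := by
      intro h
      have h1 : p * p ∣ p * t := Nat.mul_dvd_mul_left p h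
      have := hs p h1
      rw [Nat.isUnit_iff] at this
      exact hp.one_lt.ne' this
    have hts : Squarefree t := hs.squarefree_of_dvd (dvd_mul_left _ _)
    by_cases h1 : t = 1
    · subst h1
      right; right; left
      exact ⟨n, p, hp, by rw [← hns]; ring⟩
    · have h2 : t = 2 := by
        obtain ⟨q, hq, hqt⟩ := Nat.exists_prime_and_dvd h1
        have hall : ∀ q, q.Prime → q ∣ t → q = 2 := by
          intro q hq hqt
          by_contra hq2
          have := hone p q hp hq hp2 hq2 (dvd_mul_right _ _) (hqt.mul_left p)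
          rw [this] at hpt
          exact hpt hqt
        have hq2 := hall q hq hqt
        subst hq2
        obtain ⟨w, rfl⟩ := hqt
        by_contra hw
        have hw1 : w ≠ 1 := by rintro rfl; simp at hw
        obtain ⟨q, hq, hqw⟩ := Nat.exists_prime_and_dvd hw1
        have := hall q hq (hqw.mul_left 2)
        subst this
        have h1 : 2 * 2 ∣ 2 * w := Nat.mul_dvd_mul_left 2 hqw
        have := hts 2 h1
        rw [Nat.isUnit_iff] at this
        omega
      subst h2
      right; right; right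
      exact ⟨n, p, hp, by rw [← hns]; ring⟩
  · have hall : ∀ q, q.Prime → q ∣ s → q = 2 := by
      intro q hq hqs
      by_contra h
      exact hex ⟨q, hq, h, hqs⟩
    by_cases h1 : s = 1
    · subst h1
      left
      exact ⟨n, by rw [← hns]; ring⟩
    · right; left
      obtain ⟨q, hq, hqs⟩ := Nat.exists_prime_and_dvd h1
      have hq2 := hall q hq hqs
      subst hq2
      obtain ⟨w, rfl⟩ := hqs
      have hw : w = 1 := by
        by_contra hw1
        obtain ⟨q, hq, hqw⟩ := Nat.exists_prime_and_dvd hw1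
        have := hall q hq (hqw.mul_left 2)
        subst this
        have h1 : 2 * 2 ∣ 2 * w := Nat.mul_dvd_mul_left 2 hqw
        have := hs 2 h1
        rw [Nat.isUnit_iff] at this
        omega
      subst hw
      exact ⟨n, by rw [← hns]; ring⟩

/-! ### Counting -/

open Finset

/-- A uniform Chebyshev bound. -/
lemma primeCounting_le {y : ℝ} (hy : 1 ≤ y) :
    (Nat.primeCounting ⌊y⌋₊ : ℝ) ≤ 12 * y / (1 + Real.log y) := by
  have hlog0 : 0 ≤ Real.log y := Real.log_nonneg hy
  rcases lt_or_ge y 2 with h2 | h2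
  · have h1 : ⌊y⌋₊ = 1 := by
      rw [Nat.floor_eq_iff (by linarith)]
      norm_num
      exact ⟨hy, by linarith⟩
    rw [h1, Nat.primeCounting_one]
    push_cast
    positivity
  · have hl2 : 0.6931471803 < Real.log 2 := Real.log_two_gt_d9
    have hl2' : Real.log 2 < 0.6931471808 := Real.log_two_lt_d9
    have hlogy : Real.log 2 ≤ Real.log y := Real.log_le_log (by norm_num) h2
    have hlogy0 : 0 < Real.log y := by linarith
    have h4 : Real.log 4 = 2 * Real.log 2 := by
      rw [show (4 : ℝ) = 2 ^ 2 by norm_num, Real.log_pow]; norm_num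
    have hmain := Chebyshev.pi_le_log4_mul_div (x := y) (by linarith)
    have hsq : Real.log √y = Real.log y / 2 := Real.log_sqrt (by linarith)
    rw [hsq, h4] at hmain
    refine le_trans hmain ?_
    rw [le_div_iff₀ (by linarith)]
    have hs1 : 1 + Real.log y ≤ 2 * √y := by
      have h5 : Real.log √y ≤ √y - 1 := Real.log_le_sub_one_of_pos (Real.sqrt_pos.mpr (by linarith))
      rw [hsq] at h5
      linarith
    have hsy : √y * √y = y := Real.mul_self_sqrt (by linarith)
    have hs2 : √y * (1 + Real.log y) ≤ 2 * y := by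
      nlinarith [Real.sqrt_nonneg y]
    have hs3 : 2 * Real.log 2 * y / (Real.log y / 2) * (1 + Real.log y) ≤ 10 * y := by
      have h6 : 2 * Real.log 2 * y / (Real.log y / 2) * (1 + Real.log y)
          = 4 * Real.log 2 * y * (1 / Real.log y + 1) := by
        field_simp
        ring
      rw [h6]
      have h7 : 1 / Real.log y ≤ 1 / Real.log 2 := one_div_le_one_div_of_le (by linarith) hlogy
      have h8 : Real.log 2 * (1 / Real.log 2) = 1 := by
        field_simp
      have h9 : 0 ≤ y := by linarith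
      have h10 : 4 * Real.log 2 * y * (1 / Real.log y + 1)
          ≤ 4 * Real.log 2 * y * (1 / Real.log 2 + 1) := by
        apply mul_le_mul_of_nonneg_left (by linarith)
        have : 0 ≤ Real.log 2 := by linarith
        positivity
      refine le_trans h10 ?_
      have h11 : 4 * Real.log 2 * y * (1 / Real.log 2 + 1)
          = 4 * y * (Real.log 2 * (1 / Real.log 2)) + 4 * y * Real.log 2 := by ring
      rw [h11, h8]
      nlinarith
    nlinarith

/-- The elements of `U` up to `N`. -/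
lemma card_le (N : ℕ) (hN : 1 ≤ N) (S : Finset ℕ) (hS : ∀ m ∈ S, m ∈ U ∧ m ≤ N) :
    S.card ≤ 3 * (Nat.sqrt N + 1)
      + 2 * ∑ n ∈ Icc 1 (Nat.sqrt N), Nat.primeCounting (N / n ^ 2) := by
  classical
  set R := Nat.sqrt N with hR
  set A1 := (range (R + 1)).image (fun a => 3 * a ^ 3 + 3 * a ^ 2) with hA1
  set A2 := (range (R + 1)).image (fun a => a ^ 2) with hA2
  set A3 := (range (R + 1)).image (fun a => 2 * a ^ 2) with hA3
  set B1 := (Icc 1 R).biUnion (fun n => (Nat.primesLE (N / n ^ 2)).image (fun p => p * n ^ 2))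
    with hB1
  set B2 := (Icc 1 R).biUnion (fun n => (Nat.primesLE (N / n ^ 2)).image (fun p => 2 * p * n ^ 2))
    with hB2
  have hsub : S ⊆ A1 ∪ (A2 ∪ (A3 ∪ (B1 ∪ B2))) := by
    intro m hm
    obtain ⟨hmU, hmN⟩ := hS m hm
    have hm1 : 1 < m := hmU.1
    have hle : ∀ n : ℕ, n ^ 2 ≤ N → n ∈ range (R + 1) := by
      intro n hn
      rw [mem_range, hR]
      have := Nat.le_sqrt'.mpr hn
      omega
    simp only [mem_union]
    rcases structure_of_mem hmU with ⟨a, ha⟩ | ⟨n, hn⟩ | ⟨n, hn⟩ | ⟨n, p, hp, hn⟩ | ⟨n, p, hp, hn⟩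
    · left
      refine mem_image.mpr ⟨a, hle a ?_, ha.symm⟩
      have : 0 ≤ a ^ 3 := Nat.zero_le _
      omega
    · right; left
      exact mem_image.mpr ⟨n, hle n (by omega), hn.symm⟩
    · right; right; left
      exact mem_image.mpr ⟨n, hle n (by omega), hn.symm⟩
    · right; right; right; left
      have hn0 : 0 < n := by
        rcases Nat.eq_zero_or_pos n with h | h
        · rw [h] at hn; simp at hn; omega
        · exact h
      have hp1 := hp.one_lt
      have hn2 : n ^ 2 ≤ m := by rw [hn]; exact Nat.le_mul_of_pos_left _ (by omega)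
      have hnR := hle n (le_trans hn2 hmN)
      rw [mem_range] at hnR
      refine mem_biUnion.mpr ⟨n, mem_Icc.mpr ⟨hn0, by omega⟩, mem_image.mpr ⟨p, ?_, hn.symm⟩⟩
      rw [Nat.mem_primesLE]
      refine ⟨?_, hp⟩
      rw [Nat.le_div_iff_mul_le (by positivity)]
      omega
    · right; right; right; right
      have hn0 : 0 < n := by
        rcases Nat.eq_zero_or_pos n with h | h
        · rw [h] at hn; simp at hn; omega
        · exact h
      have hp1 := hp.one_lt
      have hn2 : n ^ 2 ≤ m := by rw [hn]; exact Nat.le_mul_of_pos_left _ (by omega)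
      have hnR := hle n (le_trans hn2 hmN)
      rw [mem_range] at hnR
      refine mem_biUnion.mpr ⟨n, mem_Icc.mpr ⟨hn0, by omega⟩, mem_image.mpr ⟨p, ?_, hn.symm⟩⟩
      rw [Nat.mem_primesLE]
      refine ⟨?_, hp⟩
      rw [Nat.le_div_iff_mul_le (by positivity)]
      have : p * n ^ 2 ≤ 2 * p * n ^ 2 := by nlinarith [Nat.zero_le (p * n ^ 2)]
      omega
  have hB : ∀ f : ℕ → ℕ → ℕ, ((Icc 1 R).biUnion
      (fun n => (Nat.primesLE (N / n ^ 2)).image (f n))).card
      ≤ ∑ n ∈ Icc 1 R, Nat.primeCounting (N / n ^ 2) := by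
    intro f
    refine le_trans card_biUnion_le (sum_le_sum fun n _ => ?_)
    refine le_trans card_image_le ?_
    rw [Nat.primesLE_card_eq_primeCounting]
  have c1 : A1.card ≤ R + 1 := le_trans card_image_le (by rw [card_range])
  have c2 : A2.card ≤ R + 1 := le_trans card_image_le (by rw [card_range])
  have c3 : A3.card ≤ R + 1 := le_trans card_image_le (by rw [card_range])
  have c4 : B1.card ≤ ∑ n ∈ Icc 1 R, Nat.primeCounting (N / n ^ 2) :=
    hB (fun n p => p * n ^ 2)
  have c5 : B2.card ≤ ∑ n ∈ Icc 1 R, Nat.primeCounting (N / n ^ 2) :=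
    hB (fun n p => 2 * p * n ^ 2)
  have c6 := card_le_card hsub
  have u1 := card_union_le A1 (A2 ∪ (A3 ∪ (B1 ∪ B2)))
  have u2 := card_union_le A2 (A3 ∪ (B1 ∪ B2))
  have u3 := card_union_le A3 (B1 ∪ B2)
  have u4 := card_union_le B1 B2
  omega

/-- The weights `n^{-3/2}` are summable. -/
lemma summable_weights : Summable (fun n : ℕ => 5 * (1 / (n : ℝ) ^ (3 / 2 : ℝ))) :=
  (Real.summable_one_div_nat_rpow.mpr (by norm_num)).mul_left 5

/-- Bound of a single term. -/
lemma term_le {N n : ℕ} (hn : 1 ≤ n) (hnN : n ^ 2 ≤ N) :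
    (Nat.primeCounting (N / n ^ 2) : ℝ)
      ≤ 12 * (N / (1 + Real.log N)) * (5 * (1 / (n : ℝ) ^ (3 / 2 : ℝ))) := by
  have hn0 : (0 : ℝ) < n := by exact_mod_cast hn
  have hn1 : (1 : ℝ) ≤ n := by exact_mod_cast hn
  have hN0 : (0 : ℝ) < N := by
    have : 0 < N := lt_of_lt_of_le (by positivity) hnN
    exact_mod_cast this
  have hy : (1 : ℝ) ≤ (N : ℝ) / (n : ℝ) ^ 2 := by
    rw [le_div_iff₀ (by positivity), one_mul]
    exact_mod_cast hnN
  have hfl : ⌊(N : ℝ) / (n : ℝ) ^ 2⌋₊ = N / n ^ 2 := by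
    have := Nat.floor_div_eq_div (K := ℝ) N (n ^ 2)
    push_cast at this
    exact this
  have h1 := primeCounting_le hy
  rw [hfl] at h1
  refine le_trans h1 ?_
  have hlog : Real.log ((N : ℝ) / (n : ℝ) ^ 2) = Real.log N - 2 * Real.log n := by
    rw [Real.log_div (by positivity) (by positivity), Real.log_pow]; norm_num
  have hlogn : 0 ≤ Real.log n := Real.log_nonneg hn1
  have hlogy : 0 ≤ Real.log N - 2 * Real.log n := by rw [← hlog]; exact Real.log_nonneg hy
  rw [hlog]
  -- (1 + a) ≤ (1 + b)(1 + a - b)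
  have hk : 1 + Real.log N ≤ (1 + 2 * Real.log n) * (1 + (Real.log N - 2 * Real.log n)) := by
    nlinarith
  have hs : 1 + 2 * Real.log n ≤ 5 * √n := by
    have h5 : Real.log √n ≤ √n - 1 :=
      Real.log_le_sub_one_of_pos (Real.sqrt_pos.mpr hn0)
    rw [Real.log_sqrt hn0.le] at h5
    have : 0 ≤ √(n : ℝ) := Real.sqrt_nonneg _
    linarith
  have hpow : (n : ℝ) ^ (3 / 2 : ℝ) * √n = (n : ℝ) ^ 2 := by
    rw [Real.sqrt_eq_rpow, ← Real.rpow_add hn0]
    norm_num
  have hpow0 : 0 < (n : ℝ) ^ (3 / 2 : ℝ) := Real.rpow_pos_of_pos hn0 _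
  have hlogN : 0 < 1 + Real.log N := by linarith
  have hlogd : 0 < 1 + (Real.log N - 2 * Real.log n) := by linarith
  have hsn : 0 < √(n : ℝ) := Real.sqrt_pos.mpr hn0
  rw [← hpow]
  rw [div_le_iff₀ hlogd]
  have e1 : 12 * ((N : ℝ) / ((n : ℝ) ^ (3 / 2 : ℝ) * √n))
      = 12 * N / (n : ℝ) ^ (3 / 2 : ℝ) * (1 / √n) := by
    field_simp
  have e2 : 12 * ((N : ℝ) / (1 + Real.log N)) * (5 * (1 / (n : ℝ) ^ (3 / 2 : ℝ)))
      * (1 + (Real.log N - 2 * Real.log n))
      = 12 * N / (n : ℝ) ^ (3 / 2 : ℝ) * (5 * (1 + (Real.log N - 2 * Real.log n))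
        / (1 + Real.log N)) := by
    field_simp
  rw [e1, e2]
  apply mul_le_mul_of_nonneg_left _ (by positivity)
  rw [div_le_div_iff₀ hsn hlogN, one_mul]
  calc 1 + Real.log N ≤ (1 + 2 * Real.log n) * (1 + (Real.log N - 2 * Real.log n)) := hk
    _ ≤ (5 * √n) * (1 + (Real.log N - 2 * Real.log n)) :=
        mul_le_mul_of_nonneg_right hs hlogd.le
    _ = 5 * (1 + (Real.log N - 2 * Real.log n)) * √n := by ring

/-- The main bound for integers. -/
lemma count_bound : ∃ C : ℝ, 0 < C ∧ ∀ N : ℕ, 1 ≤ N → ∀ S : Finset ℕ,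
    (∀ m ∈ S, m ∈ U ∧ m ≤ N) → (S.card : ℝ) ≤ C * (N / (1 + Real.log N)) := by
  set T : ℝ := ∑' n : ℕ, 5 * (1 / (n : ℝ) ^ (3 / 2 : ℝ)) with hT
  have hT0 : 0 ≤ T := tsum_nonneg fun n => by positivity
  refine ⟨12 + 24 * T, by linarith, ?_⟩
  intro N hN S hS
  have hN1 : (1 : ℝ) ≤ N := by exact_mod_cast hN
  have hlog0 : 0 ≤ Real.log N := Real.log_nonneg hN1
  have h1 := card_le N hN S hS
  have h1' : (S.card : ℝ) ≤ 3 * (Nat.sqrt N + 1)
      + 2 * ∑ n ∈ Icc 1 (Nat.sqrt N), (Nat.primeCounting (N / n ^ 2) : ℝ) := by exact_mod_cast h1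
  have h2 : ∑ n ∈ Icc 1 (Nat.sqrt N), (Nat.primeCounting (N / n ^ 2) : ℝ)
      ≤ 12 * (N / (1 + Real.log N)) * T := by
    have h3 : ∑ n ∈ Icc 1 (Nat.sqrt N), (Nat.primeCounting (N / n ^ 2) : ℝ)
        ≤ ∑ n ∈ Icc 1 (Nat.sqrt N),
          12 * (N / (1 + Real.log N)) * (5 * (1 / (n : ℝ) ^ (3 / 2 : ℝ))) := by
      refine sum_le_sum fun n hn => ?_
      rw [mem_Icc] at hn
      exact term_le hn.1 (Nat.le_sqrt'.mp hn.2)
    refine le_trans h3 ?_
    rw [← mul_sum]
    apply mul_le_mul_of_nonneg_left _ (by positivity)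
    exact summable_weights.sum_le_tsum _ (fun n _ => by positivity)
  have h4 : (3 : ℝ) * (Nat.sqrt N + 1) ≤ 12 * (N / (1 + Real.log N)) := by
    have h5 : ((Nat.sqrt N : ℕ) : ℝ) ≤ √(N : ℝ) := by
      apply Real.le_sqrt_of_sq_le
      have := Nat.sqrt_le' N
      exact_mod_cast this
    have h6 : 1 + Real.log N ≤ 2 * √(N : ℝ) := by
      have h5 : Real.log √(N : ℝ) ≤ √(N : ℝ) - 1 :=
        Real.log_le_sub_one_of_pos (Real.sqrt_pos.mpr (by linarith))
      rw [Real.log_sqrt (by linarith)] at h5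
      linarith
    have h7 : 1 ≤ √(N : ℝ) := Real.one_le_sqrt.mpr hN1
    have h8 : √(N : ℝ) * √(N : ℝ) = N := Real.mul_self_sqrt (by linarith)
    rw [← mul_div_assoc, le_div_iff₀ (by linarith)]
    nlinarith
  calc (S.card : ℝ) ≤ _ := h1'
    _ ≤ 12 * (N / (1 + Real.log N)) + 2 * (12 * (N / (1 + Real.log N)) * T) := by linarith
    _ = (12 + 24 * T) * (N / (1 + Real.log N)) := by ring

/-- **MP_3400ab, Q2, proved.**  The number `U(x)` of integers `1 < m ≤ x` with exactly one minimal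
`m`-Markoff triple satisfies `U(x) = O(x / log x)`. -/
theorem result :
    (fun x : ℝ => ((({m : ℕ | m ∈ U ∧ (m : ℝ) ≤ x}).ncard : ℕ) : ℝ)) =O[Filter.atTop]
      (fun x : ℝ => x / Real.log x) := by
  obtain ⟨C, hC, hbound⟩ := count_bound
  rw [Asymptotics.isBigO_iff]
  refine ⟨2 * C, ?_⟩
  filter_upwards [Filter.eventually_ge_atTop (2 : ℝ)] with x hx
  have hx0 : 0 < x := by linarith
  have hlogx : 0 < Real.log x := Real.log_pos (by linarith)
  rw [Real.norm_of_nonneg (by positivity), Real.norm_of_nonneg (by positivity)]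
  set N := ⌊x⌋₊ with hN
  have hN1 : 1 ≤ N := Nat.le_floor (by push_cast; linarith)
  have hNx : (N : ℝ) ≤ x := Nat.floor_le hx0.le
  have hfin : {m : ℕ | m ∈ U ∧ (m : ℝ) ≤ x}.Finite := by
    refine (Set.finite_Iic N).subset ?_
    rintro m ⟨_, hm⟩
    exact Nat.le_floor hm
  have h1 : (({m : ℕ | m ∈ U ∧ (m : ℝ) ≤ x}).ncard : ℝ) ≤ C * (N / (1 + Real.log N)) := by
    rw [Set.ncard_eq_toFinset_card _ hfin]
    apply hbound N hN1
    intro m hm
    rw [Set.Finite.mem_toFinset] at hm
    exact ⟨hm.1, Nat.le_floor hm.2⟩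
  refine le_trans h1 ?_
  have hN1' : (1 : ℝ) ≤ N := by exact_mod_cast hN1
  have hlogN : 0 ≤ Real.log N := Real.log_nonneg hN1'
  have hx2N : x ≤ 2 * N := by
    have := Nat.lt_floor_add_one x
    rw [← hN] at this
    linarith
  have hl2' : Real.log 2 < 0.6931471808 := Real.log_two_lt_d9
  have hlog : Real.log x ≤ 2 * (1 + Real.log N) := by
    have h2 : Real.log x ≤ Real.log (2 * N) := Real.log_le_log hx0 hx2N
    rw [Real.log_mul (by norm_num) (by positivity)] at h2
    linarith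
  have h3 : (N : ℝ) / (1 + Real.log N) ≤ 2 * (x / Real.log x) := by
    rw [← mul_div_assoc, div_le_div_iff₀ (by linarith) hlogx]
    nlinarith
  calc C * (N / (1 + Real.log N)) ≤ C * (2 * (x / Real.log x)) :=
        mul_le_mul_of_nonneg_left h3 hC.le
    _ = 2 * C * (x / Real.log x) := by ring

end Pool.Agent.Results.MP_3400ab_nt.UniqueMinimalUpper
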